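import Pool.Agent.P8H72.RE.Stm
import Pool.Agent.H770R2.Kad.Kap2
import Pool.Agent.H770R2.Kad.Net

/-!
# Project RE (helper72), package KAP: bounded approximation by sums of elementary tensors
(author helper66)
-/

set_option autoImplicit false

open scoped Topology InnerProductSpace
open Filter

namespace Pool.Agent.P8H66.RE

open Pool.Agent.N557.QWX (Op tr IsTracial IsHom)
open Pool.Agent.P8H72.RE

noncomputable section

section kap

variable {H K E : Type} [NormedAddCommGroup H] [InnerProductSpace ℂ H] [CompleteSpace H]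
  [NormedAddCommGroup K] [InnerProductSpace ℂ K] [CompleteSpace K]
  [NormedAddCommGroup E] [InnerProductSpace ℂ E] [CompleteSpace E]
  {B : VonNeumannAlgebra H} {N : VonNeumannAlgebra K} {S : VonNeumannAlgebra E}
  {a : Op H → Op E} {b : Op K → Op E}

/-- finite sums of elementary tensors -/
def IsSm (B : VonNeumannAlgebra H) (N : VonNeumannAlgebra K) (a : Op H → Op E) (b : Op K → Op E)
    (z : Op E) : Prop :=
  ∃ (ι : Type) (_ : Fintype ι) (α : ι → Op H) (β : ι → Op K), (∀ s, α s ∈ B) ∧ (∀ s, β s ∈ N) ∧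
    z = ∑ s, a (α s) * b (β s)

omit [CompleteSpace E] in
theorem IsSm.fin {z : Op E} (h : IsSm B N a b z) :
    ∃ (r : ℕ) (α : Fin r → Op H) (β : Fin r → Op K), (∀ s, α s ∈ B) ∧ (∀ s, β s ∈ N) ∧
      z = ∑ s, a (α s) * b (β s) := by
  classical
  obtain ⟨ι, _, α, β, hα, hβ, hz⟩ := h
  refine ⟨Fintype.card ι, α ∘ (Fintype.equivFin ι).symm, β ∘ (Fintype.equivFin ι).symm,
    fun s => hα _, fun s => hβ _, ?_⟩
  rw [hz]
  exact (Equiv.sum_comp (Fintype.equivFin ι).symm fun s => a (α s) * b (β s)).symm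

omit [CompleteSpace E] in
theorem IsSm.add {z w : Op E} (hz : IsSm B N a b z) (hw : IsSm B N a b w) :
    IsSm B N a b (z + w) := by
  obtain ⟨ι, _, α, β, hα, hβ, hz⟩ := hz
  obtain ⟨κ, _, α', β', hα', hβ', hw⟩ := hw
  refine ⟨ι ⊕ κ, inferInstance, Sum.elim α α', Sum.elim β β', ?_, ?_, ?_⟩
  · rintro (s | s) <;> simp [hα, hα']
  · rintro (s | s) <;> simp [hβ, hβ']
  · rw [hz, hw, Fintype.sum_sum_type]
    rfl

omit [CompleteSpace E] in
theorem IsSm.one' (x : Op H) (y : Op K) (hx : x ∈ B) (hy : y ∈ N) : IsSm B N a b (a x * b y) :=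
  ⟨Unit, inferInstance, fun _ => x, fun _ => y, fun _ => hx, fun _ => hy, by simp⟩

variable (ha : IsHom B S a) (hb : IsHom N S b) (hc : ∀ x ∈ B, ∀ y ∈ N, a x * b y = b y * a x)

include ha hb hc in
theorem IsSm.mul {z w : Op E} (hz : IsSm B N a b z) (hw : IsSm B N a b w) :
    IsSm B N a b (z * w) := by
  obtain ⟨ι, _, α, β, hα, hβ, hz⟩ := hz
  obtain ⟨κ, _, α', β', hα', hβ', hw⟩ := hw
  refine ⟨ι × κ, inferInstance, fun s => α s.1 * α' s.2, fun s => β s.1 * β' s.2,
    fun s => mul_mem (S := VonNeumannAlgebra H) (s := B) (hα _) (hα' _),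
    fun s => mul_mem (S := VonNeumannAlgebra K) (s := N) (hβ _) (hβ' _), ?_⟩
  rw [hz, hw, Finset.sum_mul_sum, Fintype.sum_prod_type]
  refine Finset.sum_congr rfl fun s _ => Finset.sum_congr rfl fun t _ => ?_
  rw [ha.mul _ (hα s) _ (hα' t), hb.mul _ (hβ s) _ (hβ' t)]
  have := hc _ (hα' t) _ (hβ s)
  calc a (α s) * b (β s) * (a (α' t) * b (β' t)) = a (α s) * (b (β s) * a (α' t)) * b (β' t) := by
        noncomm_ring
    _ = a (α s) * (a (α' t) * b (β s)) * b (β' t) := by rw [this]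
    _ = a (α s) * a (α' t) * (b (β s) * b (β' t)) := by noncomm_ring

include ha hb hc in
theorem IsSm.adj {z : Op E} (hz : IsSm B N a b z) : IsSm B N a b (star z) := by
  obtain ⟨ι, _, α, β, hα, hβ, hz⟩ := hz
  refine ⟨ι, inferInstance, fun s => star (α s), fun s => star (β s),
    fun s => star_mem (S := VonNeumannAlgebra H) (s := B) (hα s),
    fun s => star_mem (S := VonNeumannAlgebra K) (s := N) (hβ s), ?_⟩
  rw [hz, star_sum]
  refine Finset.sum_congr rfl fun s _ => ?_
  rw [star_mul, ← ha.star _ (hα s), ← hb.star _ (hβ s)]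
  exact (hc _ (star_mem (S := VonNeumannAlgebra H) (s := B) (hα s)) _
    (star_mem (S := VonNeumannAlgebra K) (s := N) (hβ s))).symm

/-- the algebra of the finite sums of elementary tensors -/
def sumAlg : StarSubalgebra ℂ (Op E) where
  carrier := {z | IsSm B N a b z}
  mul_mem' := fun hz hw => IsSm.mul ha hb hc hz hw
  one_mem' := by
    have := IsSm.one' (a := a) (b := b) 1 1 (one_mem B) (one_mem N)
    rwa [ha.one, hb.one, mul_one] at this
  add_mem' := fun hz hw => IsSm.add hz hw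
  zero_mem' := ⟨Empty, inferInstance, fun s => s.elim, fun s => s.elim, fun s => s.elim,
    fun s => s.elim, by simp⟩
  algebraMap_mem' := fun c => by
    have h1 : (c • (1 : Op H)) ∈ B := B.toStarSubalgebra.smul_mem (one_mem _) c
    have := IsSm.one' (a := a) (b := b) (c • 1) 1 h1 (one_mem N)
    rw [ha.smul c _ (one_mem B), ha.one, hb.one, mul_one] at this
    rwa [Set.mem_ofPred_eq, Algebra.algebraMap_eq_smul_one]
  star_mem' := fun hz => IsSm.adj ha hb hc hz

theorem mem_sumAlg {z : Op E} : z ∈ sumAlg ha hb hc ↔ IsSm B N a b z := Iff.rfl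

/-- the commutant of an operator and its adjoint -/
def cmt (y : Op E) : VonNeumannAlgebra E where
  toStarSubalgebra := StarSubalgebra.centralizer ℂ {y}
  centralizer_centralizer' := by
    show Set.centralizer (Set.centralizer (StarSubalgebra.centralizer ℂ {y} : Set (Op E))) =
      (StarSubalgebra.centralizer ℂ {y} : Set (Op E))
    rw [StarSubalgebra.coe_centralizer, Set.centralizer_centralizer_centralizer]

theorem mem_cmt {y x : Op E} : x ∈ cmt y ↔ y * x = x * y ∧ star y * x = x * star y := by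
  show x ∈ StarSubalgebra.centralizer ℂ {y} ↔ _
  rw [StarSubalgebra.mem_centralizer_iff]
  simp

end kap

theorem t_KAP : S_KAP := by
  classical
  intro H K E _ _ _ _ _ _ _ _ _ B N S a b ha hb hc hS X hX η ε hε
  set 𝒮 : StarSubalgebra ℂ (Op E) := sumAlg ha hb hc with h𝒮
  set 𝒜 : StarSubalgebra ℂ (Op E) := 𝒮.topologicalClosure with h𝒜
  have hcl : IsClosed (𝒜 : Set (Op E)) := 𝒮.isClosed_topologicalClosure
  have hbic : ∀ y : E →L[ℂ] E, (∀ c : 𝒜, y * 𝒜.subtype c = 𝒜.subtype c * y) → y * X = X * y := by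
    intro y hy
    have hy' : ∀ z : Op E, IsSm B N a b z → y * z = z * y := fun z hz =>
      hy ⟨z, StarSubalgebra.le_topologicalClosure 𝒮 hz⟩
    have h1 : ∀ z : Op E, IsSm B N a b z → z ∈ cmt y := by
      intro z hz
      rw [mem_cmt]
      refine ⟨hy' z hz, ?_⟩
      have h2 := hy' _ (IsSm.adj ha hb hc hz)
      have h3 := congrArg star h2
      rw [star_mul, star_mul, star_star] at h3
      exact h3.symm
    have h2 : S ≤ cmt y := by
      refine hS.least _ ?_
      rintro x (⟨x', hx', rfl⟩ | ⟨y', hy', rfl⟩)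
      · have := h1 _ (IsSm.one' (a := a) (b := b) x' 1 hx' (one_mem N))
        rwa [hb.one, mul_one] at this
      · have := h1 _ (IsSm.one' (a := a) (b := b) 1 y' (one_mem B) hy')
        rwa [ha.one, one_mul] at this
    exact (mem_cmt.1 (h2 hX)).1
  obtain ⟨net, hnet, hn⟩ := H770R2.Kad.prove_net H770R2.Kad.prove_kap 𝒜 E 𝒜.subtype X hbic
  have h1 := hnet.lim η
  have h2 : ∀ᶠ i in atTop, ‖𝒜.subtype (net i) η - X η‖ < ε / 2 := by
    have h3 := (Metric.tendsto_nhds.1 h1) (ε / 2) (by positivity)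
    filter_upwards [h3] with i hi
    rwa [dist_eq_norm] at hi
  obtain ⟨i, hi⟩ := h2.exists
  set y : Op E := 𝒜.subtype (net i) with hy
  have hyA : y ∈ 𝒜 := (net i).2
  have hyn : ‖y‖ ≤ 2 * ‖X‖ := hn i
  have hycl : y ∈ closure (𝒮 : Set (Op E)) := by
    rw [← StarSubalgebra.topologicalClosure_coe]
    exact hyA
  have hδ : 0 < min 1 (ε / (2 * (‖η‖ + 1))) := by
    refine lt_min one_pos ?_
    positivity
  obtain ⟨z, hz, hzd⟩ := Metric.mem_closure_iff.1 hycl _ hδ
  obtain ⟨r, α, β, hα, hβ, hzs⟩ := IsSm.fin hz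
  rw [dist_eq_norm] at hzd
  have hz1 : ‖y - z‖ < 1 := hzd.trans_le (min_le_left _ _)
  have hz2 : ‖y - z‖ < ε / (2 * (‖η‖ + 1)) := hzd.trans_le (min_le_right _ _)
  refine ⟨r, α, β, hα, hβ, ?_, ?_⟩
  · rw [← hzs]
    have h3 : ‖z‖ ≤ ‖y‖ + ‖y - z‖ := by
      have := norm_sub_le y (y - z)
      rwa [sub_sub_cancel] at this
    linarith
  · rw [← hzs]
    have h3 : (X - z) η = -(y η - X η) + (y - z) η := by
      simp only [ContinuousLinearMap.sub_apply]
      abel
    rw [h3]
    have h4 : ‖(y - z) η‖ ≤ ε / 2 := by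
      have h5 := (y - z).le_opNorm η
      have h6 : ‖y - z‖ * ‖η‖ ≤ ε / (2 * (‖η‖ + 1)) * (‖η‖ + 1) := by
        refine mul_le_mul hz2.le (by linarith) (norm_nonneg _) ?_
        positivity
      have h7 : ε / (2 * (‖η‖ + 1)) * (‖η‖ + 1) = ε / 2 := by
        have : ‖η‖ + 1 ≠ 0 := by positivity
        field_simp
      linarith
    have h8 := norm_add_le (-(y η - X η)) ((y - z) η)
    rw [norm_neg] at h8
    linarith

end

end Pool.Agent.P8H66.RE
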