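import Pool.Agent.P8H72.RE.Stm
import Pool.Agent.H21R2.HFro

/-!
# Project RE (helper72), package POL: polar decomposition (author helper66)
-/

set_option autoImplicit false

open scoped Topology InnerProductSpace Kronecker ComplexOrder
open Filter Matrix Finset

namespace Pool.Agent.P8H66.RE

section pol

variable {α : Type*} [Fintype α] [DecidableEq α]

open Pool.Agent.H21R2

/-- Every square matrix is close to a unitary matrix, by the polar decomposition. -/
theorem polar_near (C : Matrix α α ℂ) :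
    ∃ U : unitaryGroup α ℂ, fro2 (C - (U : Matrix α α ℂ)) ≤ fro2 (Cᴴ * C - 1) := by
  set H : Matrix α α ℂ := Cᴴ * C with hH
  have hHpsd : H.PosSemidef := posSemidef_conjTranspose_mul_self C
  have hHh : H.IsHermitian := hHpsd.1
  set V : unitaryGroup α ℂ := hHh.eigenvectorUnitary with hV
  set lam : α → ℝ := hHh.eigenvalues with hlam
  have hlam0 : ∀ i, 0 ≤ lam i := fun i => hHpsd.eigenvalues_nonneg i
  set D : Matrix α α ℂ := C * (V : Matrix α α ℂ) with hD
  have hDD : Dᴴ * D = diagonal (fun i => (lam i : ℂ)) := by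
    have h1 := hHh.conjStarAlgAut_star_eigenvectorUnitary
    rw [Unitary.conjStarAlgAut_star_apply] at h1
    rw [hD, conjTranspose_mul, Matrix.mul_assoc, ← Matrix.mul_assoc Cᴴ, ← Matrix.mul_assoc]
    exact h1
  have hcol : ∀ i j, ∑ k, star (D k i) * D k j = if i = j then (lam i : ℂ) else 0 := by
    intro i j
    have := congrFun (congrFun hDD i) j
    rw [mul_apply, diagonal_apply] at this
    exact this
  have hnorm : ∀ i, ∑ k, ‖D k i‖ ^ 2 = lam i := by
    intro i
    have h1 := hcol i i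
    simp only [if_true, Complex.star_def, Complex.conj_mul'] at h1
    exact_mod_cast h1
  -- orthonormal columns
  obtain ⟨Q, hQ⟩ := exists_unitary_columns (fun i k => D k i / (Real.sqrt (lam i) : ℂ))
    {i | lam i ≠ 0} (by
      intro i hi j hj
      have hi' : (Real.sqrt (lam i) : ℂ) ≠ 0 := by
        have : 0 < lam i := lt_of_le_of_ne (hlam0 i) (Ne.symm hi)
        exact_mod_cast (Real.sqrt_pos.mpr this).ne'
      have hj' : (Real.sqrt (lam j) : ℂ) ≠ 0 := by
        have : 0 < lam j := lt_of_le_of_ne (hlam0 j) (Ne.symm hj)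
        exact_mod_cast (Real.sqrt_pos.mpr this).ne'
      have h1 : ∀ k, star (D k i / (Real.sqrt (lam i) : ℂ)) * (D k j / (Real.sqrt (lam j) : ℂ)) =
          (star (D k i) * D k j) / ((Real.sqrt (lam i) : ℂ) * (Real.sqrt (lam j) : ℂ)) := by
        intro k
        have h0 : star ((Real.sqrt (lam i) : ℂ)) = (Real.sqrt (lam i) : ℂ) := Complex.conj_ofReal _
        rw [star_div₀, h0]
        field_simp
      simp_rw [h1]
      rw [← sum_div, hcol]
      split_ifs with h
      · subst h
        rw [div_eq_one_iff_eq (mul_ne_zero hi' hj')]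
        rw [← Complex.ofReal_mul, Real.mul_self_sqrt (hlam0 i)]
      · simp)
  refine ⟨Q * V⁻¹, ?_⟩
  have h1 : C - (((Q * V⁻¹ : unitaryGroup α ℂ)) : Matrix α α ℂ) =
      (D - (Q : Matrix α α ℂ)) * ((V⁻¹ : unitaryGroup α ℂ) : Matrix α α ℂ) := by
    rw [Matrix.sub_mul, hD, Matrix.mul_assoc]
    have : (V : Matrix α α ℂ) * ((V⁻¹ : unitaryGroup α ℂ) : Matrix α α ℂ) = 1 := by
      rw [← UnitaryGroup.mul_val, mul_inv_cancel]; rfl
    rw [this, Matrix.mul_one]
    rfl
  rw [h1, fro2_mul_unitary]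
  have hR : fro2 (H - 1) = ∑ i, (lam i - 1) ^ 2 := by
    have h2 : fro2 (H - 1) = fro2 (Dᴴ * D - 1) := by
      have h4 : (V : Matrix α α ℂ)ᴴ * (V : Matrix α α ℂ) = 1 := UnitaryGroup.star_mul_self V
      have h3 : Dᴴ * D - 1 = ((V⁻¹ : unitaryGroup α ℂ) : Matrix α α ℂ) *
          ((H - 1) * (V : Matrix α α ℂ)) := by
        show Dᴴ * D - 1 = (V : Matrix α α ℂ)ᴴ * ((H - 1) * (V : Matrix α α ℂ))
        rw [Matrix.sub_mul, Matrix.mul_sub, Matrix.one_mul, h4, hD, conjTranspose_mul, hH]
        simp only [Matrix.mul_assoc]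
      rw [h3, fro2_unitary_mul, fro2_mul_unitary]
    rw [h2, hDD, fro2, sum_comm]
    refine sum_congr rfl fun i _ => ?_
    rw [Finset.sum_eq_single i]
    · rw [Matrix.sub_apply, diagonal_apply_eq, one_apply_eq]
      rw [← Complex.ofReal_one, ← Complex.ofReal_sub, Complex.norm_real, Real.norm_eq_abs, sq_abs]
    · intro j _ hj
      rw [Matrix.sub_apply, diagonal_apply_ne _ hj, one_apply_ne hj]
      simp
    · intro h
      exact absurd (mem_univ i) h
  rw [hR, fro2, sum_comm]
  refine sum_le_sum fun i _ => ?_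
  by_cases hi : lam i = 0
  · have hD0 : ∀ k, D k i = 0 := by
      intro k
      have h3 := hnorm i
      rw [hi] at h3
      have := (sum_eq_zero_iff_of_nonneg (fun k _ => sq_nonneg ‖D k i‖)).mp h3 k (mem_univ k)
      simpa using this
    have h4 : ∑ k, ‖(Q : Matrix α α ℂ) k i‖ ^ 2 = 1 := by
      have h5 := UnitaryGroup.star_mul_self Q
      have h6 := congrFun (congrFun h5 i) i
      rw [mul_apply] at h6
      simp only [star_eq_conjTranspose, conjTranspose_apply, Complex.star_def, Complex.conj_mul',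
        one_apply_eq] at h6
      exact_mod_cast h6
    simp only [Matrix.sub_apply, hD0, zero_sub, norm_neg, h4, hi]
    norm_num
  · have hpos : 0 < lam i := lt_of_le_of_ne (hlam0 i) (Ne.symm hi)
    set r := Real.sqrt (lam i) with hr
    have hrpos : 0 < r := Real.sqrt_pos.mpr hpos
    have hr2 : r ^ 2 = lam i := Real.sq_sqrt (hlam0 i)
    have h3 : ∀ k, ‖(D - (Q : Matrix α α ℂ)) k i‖ ^ 2 = ((r - 1) / r) ^ 2 * ‖D k i‖ ^ 2 := by
      intro k
      rw [Matrix.sub_apply, hQ i hi k]
      have hrc : (r : ℂ) ≠ 0 := by exact_mod_cast hrpos.ne'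
      have h4 : D k i - D k i / (r : ℂ) = (((r - 1) / r : ℝ) : ℂ) * D k i := by
        push_cast
        field_simp
      rw [h4, norm_mul, mul_pow, Complex.norm_real, Real.norm_eq_abs, sq_abs]
    simp_rw [h3]
    rw [← mul_sum, hnorm, ← hr2]
    have h5 : ((r - 1) / r) ^ 2 * r ^ 2 = (r - 1) ^ 2 := by
      field_simp
    rw [h5]
    have h6 : (r ^ 2 - 1) ^ 2 = (r - 1) ^ 2 * (r + 1) ^ 2 := by ring
    rw [h6]
    nlinarith [sq_nonneg (r - 1), mul_nonneg (sq_nonneg (r - 1)) (by nlinarith : 0 ≤ (r + 1) ^ 2 - 1)]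

end pol

theorem t_POL : Pool.Agent.P8H72.RE.S_POL := by
  intro X _ _ P
  exact polar_near P

end Pool.Agent.P8H66.RE
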