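import Pool.Agent.P8H72.RE.Stm
import Pool.Agent.W683.RC.Bas

/-!
# Project RE (helper72), package TEN: calculus of matrix models of tensor products (author helper66)
-/

set_option autoImplicit false

open scoped Topology InnerProductSpace Kronecker ComplexOrder
open Filter Matrix

namespace Pool.Agent.P8H66.RE

open Pool.Agent.N557.QWX (Op tr IsTracial IsHom)
open Pool.Agent.W661.RC (hs)
open Pool.Agent.W683.RC (hs_nonneg hs_zero hs_neg hs_smul hs_add_le hs_sub_le hs_conjTranspose hs_eq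
  norm_trace_le hs_sum_le)
open Pool.Agent.P8H72.RE

noncomputable section

/-! ### Bounded families and null families -/

section fam

variable {I : Type} {S : I → Type} [∀ i, Fintype (S i)]

/-- bounded families -/
def BB (X : ∀ i, Matrix (S i) (S i) ℂ) : Prop := ∃ C : ℝ, ∀ i, Bd C (X i)

/-- null families -/
def Nul (F : Filter I) (c : I → ℝ) (X : ∀ i, Matrix (S i) (S i) ℂ) : Prop :=
  Tendsto (fun i => hs (X i) / c i) F (𝓝 0)

theorem bd_mono {X : Type} [Fintype X] {C D : ℝ} {Z : Matrix X X ℂ} (h : Bd C Z) (hCD : C ≤ D) :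
    Bd D Z := fun W => ⟨(h W).1.trans (mul_le_mul_of_nonneg_right hCD (hs_nonneg W)),
    (h W).2.trans (mul_le_mul_of_nonneg_right hCD (hs_nonneg W))⟩

theorem BB.nn {X : ∀ i, Matrix (S i) (S i) ℂ} (h : BB X) : ∃ C : ℝ, 0 ≤ C ∧ ∀ i, Bd C (X i) := by
  obtain ⟨C, hC⟩ := h
  exact ⟨|C|, abs_nonneg _, fun i => bd_mono (hC i) (le_abs_self _)⟩

theorem BB.add {X Y : ∀ i, Matrix (S i) (S i) ℂ} (hX : BB X) (hY : BB Y) :
    BB (fun i => X i + Y i) := by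
  obtain ⟨C, hC⟩ := hX
  obtain ⟨D, hD⟩ := hY
  refine ⟨2 * C + 2 * D, fun i W => ?_⟩
  have h1 := hC i W
  have h2 := hD i W
  refine ⟨?_, ?_⟩
  · rw [Matrix.add_mul]
    have := hs_add_le (X i * W) (Y i * W)
    linarith [h1.1, h2.1]
  · rw [Matrix.mul_add]
    have := hs_add_le (W * X i) (W * Y i)
    linarith [h1.2, h2.2]

theorem BB.smul {X : ∀ i, Matrix (S i) (S i) ℂ} (c : ℂ) (hX : BB X) : BB (fun i => c • X i) := by
  obtain ⟨C, hC⟩ := hX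
  refine ⟨‖c‖ ^ 2 * C, fun i W => ?_⟩
  rw [Matrix.smul_mul, Matrix.mul_smul, hs_smul, hs_smul, mul_assoc]
  exact ⟨mul_le_mul_of_nonneg_left (hC i W).1 (sq_nonneg _),
    mul_le_mul_of_nonneg_left (hC i W).2 (sq_nonneg _)⟩

theorem BB.sub {X Y : ∀ i, Matrix (S i) (S i) ℂ} (hX : BB X) (hY : BB Y) :
    BB (fun i => X i - Y i) := by
  have := hX.add (hY.smul (-1))
  simpa [sub_eq_add_neg] using this

theorem BB.mul {X Y : ∀ i, Matrix (S i) (S i) ℂ} (hX : BB X) (hY : BB Y) :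
    BB (fun i => X i * Y i) := by
  obtain ⟨C, hC0, hC⟩ := hX.nn
  obtain ⟨D, hD0, hD⟩ := hY.nn
  refine ⟨C * D, fun i W => ⟨?_, ?_⟩⟩
  · rw [Matrix.mul_assoc]
    have h1 := (hC i (Y i * W)).1
    have h2 := mul_le_mul_of_nonneg_left (hD i W).1 hC0
    linarith
  · rw [← Matrix.mul_assoc]
    have h1 := (hD i (W * X i)).2
    have h2 := mul_le_mul_of_nonneg_left (hC i W).2 hD0
    linarith

theorem BB.conj {X : ∀ i, Matrix (S i) (S i) ℂ} (hX : BB X) : BB (fun i => (X i)ᴴ) := by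
  obtain ⟨C, hC⟩ := hX
  refine ⟨C, fun i W => ⟨?_, ?_⟩⟩
  · have := (hC i Wᴴ).2
    rw [← hs_conjTranspose, Matrix.conjTranspose_mul, Matrix.conjTranspose_conjTranspose]
    rwa [hs_conjTranspose W] at this
  · have := (hC i Wᴴ).1
    rw [← hs_conjTranspose, Matrix.conjTranspose_mul, Matrix.conjTranspose_conjTranspose]
    rwa [hs_conjTranspose W] at this

theorem BB.zero : BB (fun i => (0 : Matrix (S i) (S i) ℂ)) :=
  ⟨0, fun i W => by simp [hs_zero]⟩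

theorem BB.one [∀ i, DecidableEq (S i)] : BB (fun i => (1 : Matrix (S i) (S i) ℂ)) :=
  ⟨1, fun i W => by simp⟩

theorem BB.sum {ι : Type*} (s : Finset ι) {X : ι → ∀ i, Matrix (S i) (S i) ℂ}
    (hX : ∀ k ∈ s, BB (X k)) : BB (fun i => ∑ k ∈ s, X k i) := by
  classical
  induction s using Finset.induction_on with
  | empty => simpa using BB.zero
  | insert k s hk ih =>
    have h1 := (hX k (Finset.mem_insert_self _ _)).add
      (ih fun j hj => hX j (Finset.mem_insert_of_mem hj))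
    simpa [Finset.sum_insert hk] using h1

variable {F : Filter I} {c : I → ℝ}

theorem Nul.of_le {X Y : ∀ i, Matrix (S i) (S i) ℂ} {C : ℝ} (hc : ∀ i, 0 < c i) (hX : Nul F c X)
    (h : ∀ i, hs (Y i) ≤ C * hs (X i)) : Nul F c Y := by
  have h1 : Tendsto (fun i => C * (hs (X i) / c i)) F (𝓝 0) := by
    simpa using hX.const_mul C
  refine squeeze_zero (fun i => div_nonneg (hs_nonneg _) (hc i).le) (fun i => ?_) h1
  rw [mul_div_assoc']
  exact div_le_div_of_nonneg_right (h i) (hc i).le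

theorem Nul.zero : Nul F c (fun i => (0 : Matrix (S i) (S i) ℂ)) := by
  unfold Nul
  simp only [hs_zero, zero_div]
  exact tendsto_const_nhds

theorem Nul.add {X Y : ∀ i, Matrix (S i) (S i) ℂ} (hc : ∀ i, 0 < c i) (hX : Nul F c X)
    (hY : Nul F c Y) : Nul F c (fun i => X i + Y i) := by
  have h1 : Tendsto (fun i => 2 * (hs (X i) / c i) + 2 * (hs (Y i) / c i)) F (𝓝 0) := by
    simpa using (hX.const_mul 2).add (hY.const_mul 2)
  refine squeeze_zero (fun i => div_nonneg (hs_nonneg _) (hc i).le) (fun i => ?_) h1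
  rw [mul_div_assoc', mul_div_assoc', ← add_div]
  exact div_le_div_of_nonneg_right (hs_add_le _ _) (hc i).le

theorem Nul.smul {X : ∀ i, Matrix (S i) (S i) ℂ} (a : ℂ) (hc : ∀ i, 0 < c i) (hX : Nul F c X) :
    Nul F c (fun i => a • X i) :=
  hX.of_le hc (C := ‖a‖ ^ 2) fun i => (hs_smul _ _).le

theorem Nul.neg {X : ∀ i, Matrix (S i) (S i) ℂ} (hX : Nul F c X) :
    Nul F c (fun i => -X i) := by
  unfold Nul at hX ⊢
  simpa only [hs_neg] using hX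

theorem Nul.sub {X Y : ∀ i, Matrix (S i) (S i) ℂ} (hc : ∀ i, 0 < c i) (hX : Nul F c X)
    (hY : Nul F c Y) : Nul F c (fun i => X i - Y i) := by
  have := hX.add hc hY.neg
  simpa only [sub_eq_add_neg] using this

theorem Nul.conj {X : ∀ i, Matrix (S i) (S i) ℂ} (hX : Nul F c X) :
    Nul F c (fun i => (X i)ᴴ) := by
  unfold Nul at hX ⊢
  simpa only [hs_conjTranspose] using hX

theorem Nul.mul_right {X W : ∀ i, Matrix (S i) (S i) ℂ} (hc : ∀ i, 0 < c i) (hX : Nul F c X)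
    (hW : BB W) : Nul F c (fun i => X i * W i) := by
  obtain ⟨C, hC⟩ := hW
  exact hX.of_le hc (C := C) fun i => (hC i (X i)).2

theorem Nul.mul_left {X W : ∀ i, Matrix (S i) (S i) ℂ} (hc : ∀ i, 0 < c i) (hX : Nul F c X)
    (hW : BB W) : Nul F c (fun i => W i * X i) := by
  obtain ⟨C, hC⟩ := hW
  exact hX.of_le hc (C := C) fun i => (hC i (X i)).1

theorem Nul.sum {ι : Type*} (s : Finset ι) {X : ι → ∀ i, Matrix (S i) (S i) ℂ}
    (hc : ∀ i, 0 < c i) (hX : ∀ k ∈ s, Nul F c (X k)) : Nul F c (fun i => ∑ k ∈ s, X k i) := by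
  classical
  induction s using Finset.induction_on with
  | empty => simpa using Nul.zero
  | insert k s hk ih =>
    have h1 := (hX k (Finset.mem_insert_self _ _)).add hc
      (ih fun j hj => hX j (Finset.mem_insert_of_mem hj))
    simpa [Finset.sum_insert hk] using h1

end fam

/-! ### Kronecker products -/

section kron

variable {n m : Type} [Fintype n] [Fintype m]

theorem hs_kron (X : Matrix n n ℂ) (Y : Matrix m m ℂ) : hs (X ⊗ₖ Y) = hs X * hs Y := by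
  unfold hs
  rw [Fintype.sum_prod_type, Finset.sum_mul_sum]
  refine Finset.sum_congr rfl fun i _ => Finset.sum_congr rfl fun j _ => ?_
  rw [Fintype.sum_prod_type, Finset.sum_mul_sum]
  refine Finset.sum_congr rfl fun k _ => Finset.sum_congr rfl fun l _ => ?_
  rw [Matrix.kroneckerMap_apply, norm_mul, mul_pow]

/-- the blocks of a matrix -/
def blk (W : Matrix (n × m) (n × m) ℂ) (j j' : m) : Matrix n n ℂ := fun i i' => W (i, j) (i', j')

/-- the blocks of a matrix -/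
def blk' (W : Matrix (n × m) (n × m) ℂ) (i i' : n) : Matrix m m ℂ := fun j j' => W (i, j) (i', j')

theorem hs_blk (W : Matrix (n × m) (n × m) ℂ) : hs W = ∑ j, ∑ j', hs (blk W j j') := by
  unfold hs blk
  simp only [Fintype.sum_prod_type]
  rw [Finset.sum_comm]
  refine Finset.sum_congr rfl fun j _ => ?_
  have h1 : ∀ i : n, ∑ x : n, ∑ x_1 : m, ‖W (i, j) (x, x_1)‖ ^ 2 =
      ∑ x_1 : m, ∑ x : n, ‖W (i, j) (x, x_1)‖ ^ 2 := fun i => Finset.sum_comm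
  simp only [h1]
  rw [Finset.sum_comm]

theorem hs_blk' (W : Matrix (n × m) (n × m) ℂ) : hs W = ∑ i, ∑ i', hs (blk' W i i') := by
  unfold hs blk'
  simp only [Fintype.sum_prod_type]
  refine Finset.sum_congr rfl fun i _ => ?_
  rw [Finset.sum_comm]

theorem bd_kron_one [DecidableEq m] {C : ℝ} {X : Matrix n n ℂ} (h : Bd C X) :
    Bd C (X ⊗ₖ (1 : Matrix m m ℂ)) := by
  intro W
  have e1 : ∀ j j', blk ((X ⊗ₖ (1 : Matrix m m ℂ)) * W) j j' = X * blk W j j' := by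
    intro j j'
    ext i i'
    simp only [blk, Matrix.mul_apply, Fintype.sum_prod_type, Matrix.kroneckerMap_apply,
      Matrix.one_apply]
    refine Finset.sum_congr rfl fun k _ => ?_
    rw [Finset.sum_eq_single j]
    · simp
    · intro l _ hl
      rw [if_neg (Ne.symm hl)]
      simp
    · intro hj
      exact absurd (Finset.mem_univ _) hj
  have e2 : ∀ j j', blk (W * (X ⊗ₖ (1 : Matrix m m ℂ))) j j' = blk W j j' * X := by
    intro j j'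
    ext i i'
    simp only [blk, Matrix.mul_apply, Fintype.sum_prod_type, Matrix.kroneckerMap_apply,
      Matrix.one_apply]
    refine Finset.sum_congr rfl fun k _ => ?_
    rw [Finset.sum_eq_single j']
    · simp
    · intro l _ hl
      rw [if_neg hl]
      simp
    · intro hj
      exact absurd (Finset.mem_univ _) hj
  refine ⟨?_, ?_⟩
  · rw [hs_blk, hs_blk W, Finset.mul_sum]
    refine Finset.sum_le_sum fun j _ => ?_
    rw [Finset.mul_sum]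
    refine Finset.sum_le_sum fun j' _ => ?_
    rw [e1]
    exact (h _).1
  · rw [hs_blk, hs_blk W, Finset.mul_sum]
    refine Finset.sum_le_sum fun j _ => ?_
    rw [Finset.mul_sum]
    refine Finset.sum_le_sum fun j' _ => ?_
    rw [e2]
    exact (h _).2

theorem bd_one_kron [DecidableEq n] {C : ℝ} {Y : Matrix m m ℂ} (h : Bd C Y) :
    Bd C ((1 : Matrix n n ℂ) ⊗ₖ Y) := by
  intro W
  have e1 : ∀ i i', blk' (((1 : Matrix n n ℂ) ⊗ₖ Y) * W) i i' = Y * blk' W i i' := by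
    intro i i'
    ext j j'
    simp only [blk', Matrix.mul_apply, Fintype.sum_prod_type, Matrix.kroneckerMap_apply,
      Matrix.one_apply]
    rw [Finset.sum_eq_single i]
    · simp
    · intro l _ hl
      refine Finset.sum_eq_zero fun x _ => ?_
      rw [if_neg (Ne.symm hl)]
      simp
    · intro hj
      exact absurd (Finset.mem_univ _) hj
  have e2 : ∀ i i', blk' (W * ((1 : Matrix n n ℂ) ⊗ₖ Y)) i i' = blk' W i i' * Y := by
    intro i i'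
    ext j j'
    simp only [blk', Matrix.mul_apply, Fintype.sum_prod_type, Matrix.kroneckerMap_apply,
      Matrix.one_apply]
    rw [Finset.sum_eq_single i']
    · simp
    · intro l _ hl
      refine Finset.sum_eq_zero fun x _ => ?_
      rw [if_neg hl]
      simp
    · intro hj
      exact absurd (Finset.mem_univ _) hj
  refine ⟨?_, ?_⟩
  · rw [hs_blk', hs_blk' W, Finset.mul_sum]
    refine Finset.sum_le_sum fun j _ => ?_
    rw [Finset.mul_sum]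
    refine Finset.sum_le_sum fun j' _ => ?_
    rw [e1]
    exact (h _).1
  · rw [hs_blk', hs_blk' W, Finset.mul_sum]
    refine Finset.sum_le_sum fun j _ => ?_
    rw [Finset.mul_sum]
    refine Finset.sum_le_sum fun j' _ => ?_
    rw [e2]
    exact (h _).2

end kron

section kfam

variable {I J : Type} {S : I → Type} {T : J → Type} [∀ i, Fintype (S i)] [∀ j, Fintype (T j)]

theorem BB.kron {X : ∀ i, Matrix (S i) (S i) ℂ} {Y : ∀ j, Matrix (T j) (T j) ℂ} (hX : BB X)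
    (hY : BB Y) : BB (I := I × J) (S := fun p => S p.1 × T p.2) (fun p => X p.1 ⊗ₖ Y p.2) := by
  classical
  obtain ⟨C, hC⟩ := hX
  obtain ⟨D, hD⟩ := hY
  have h1 : BB (I := I × J) (S := fun p => S p.1 × T p.2)
      (fun p => X p.1 ⊗ₖ (1 : Matrix (T p.2) (T p.2) ℂ)) := ⟨C, fun p => bd_kron_one (hC p.1)⟩
  have h2 : BB (I := I × J) (S := fun p => S p.1 × T p.2)
      (fun p => (1 : Matrix (S p.1) (S p.1) ℂ) ⊗ₖ Y p.2) := ⟨D, fun p => bd_one_kron (hD p.2)⟩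
  have h3 := h1.mul h2
  have h4 : (fun p : I × J => X p.1 ⊗ₖ Y p.2) = fun p => (X p.1 ⊗ₖ (1 : Matrix (T p.2) (T p.2) ℂ)) *
      ((1 : Matrix (S p.1) (S p.1) ℂ) ⊗ₖ Y p.2) := by
    funext p
    rw [← Matrix.mul_kronecker_mul, Matrix.mul_one, Matrix.one_mul]
  rw [h4]
  exact h3

variable {F : Filter I} {G : Filter J} {c : I → ℝ} {d : J → ℝ}

theorem hs_le_of_BB [∀ j, DecidableEq (T j)] {Y : ∀ j, Matrix (T j) (T j) ℂ} (hY : BB Y)
    (hd : ∀ j, hs (1 : Matrix (T j) (T j) ℂ) = d j) : ∃ C : ℝ, ∀ j, hs (Y j) ≤ C * d j := by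
  obtain ⟨C, hC⟩ := hY
  refine ⟨C, fun j => ?_⟩
  have := (hC j 1).1
  rwa [Matrix.mul_one, hd] at this

theorem Nul.kron [∀ j, DecidableEq (T j)] {X : ∀ i, Matrix (S i) (S i) ℂ}
    {Y : ∀ j, Matrix (T j) (T j) ℂ} (hc : ∀ i, 0 < c i)
    (hd0 : ∀ j, 0 < d j) (hX : Nul F c X) (hY : BB Y)
    (hd : ∀ j, hs (1 : Matrix (T j) (T j) ℂ) = d j) :
    Nul (I := I × J) (S := fun p => S p.1 × T p.2) (F ×ˢ G) (fun p => c p.1 * d p.2)
      (fun p => X p.1 ⊗ₖ Y p.2) := by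
  obtain ⟨C, hC⟩ := hs_le_of_BB hY hd
  have h1 : Tendsto (fun p : I × J => C * (hs (X p.1) / c p.1)) (F ×ˢ G) (𝓝 0) := by
    simpa using (Tendsto.comp hX tendsto_fst).const_mul C
  refine squeeze_zero (fun p => div_nonneg (hs_nonneg _) (mul_pos (hc _) (hd0 _)).le) (fun p => ?_) h1
  rw [hs_kron, mul_div_assoc', div_le_div_iff₀ (mul_pos (hc _) (hd0 _)) (hc _)]
  have := mul_le_mul_of_nonneg_left (hC p.2) (mul_nonneg (hs_nonneg (X p.1)) (hc p.1).le)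
  linarith

theorem Nul.kron' [∀ i, DecidableEq (S i)] {X : ∀ i, Matrix (S i) (S i) ℂ}
    {Y : ∀ j, Matrix (T j) (T j) ℂ} (hc : ∀ i, 0 < c i)
    (hd0 : ∀ j, 0 < d j) (hX : BB X) (hY : Nul G d Y)
    (hc1 : ∀ i, hs (1 : Matrix (S i) (S i) ℂ) = c i) :
    Nul (I := I × J) (S := fun p => S p.1 × T p.2) (F ×ˢ G) (fun p => c p.1 * d p.2)
      (fun p => X p.1 ⊗ₖ Y p.2) := by
  obtain ⟨C, hC⟩ := hs_le_of_BB hX hc1
  have h1 : Tendsto (fun p : I × J => C * (hs (Y p.2) / d p.2)) (F ×ˢ G) (𝓝 0) := by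
    simpa using (Tendsto.comp hY tendsto_snd).const_mul C
  refine squeeze_zero (fun p => div_nonneg (hs_nonneg _) (mul_pos (hc _) (hd0 _)).le) (fun p => ?_) h1
  rw [hs_kron, mul_div_assoc', div_le_div_iff₀ (mul_pos (hc _) (hd0 _)) (hd0 _)]
  have := mul_le_mul_of_nonneg_left (hC p.1) (mul_nonneg (hs_nonneg (Y p.2)) (hd0 p.2).le)
  linarith

end kfam

theorem hs_one (n : ℕ) : hs (1 : Matrix (Fin n) (Fin n) ℂ) = n := by
  rw [hs_eq]
  simp

/-! ### Tensor products -/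

section ten

variable {H K E : Type} [NormedAddCommGroup H] [InnerProductSpace ℂ H] [CompleteSpace H]
  [NormedAddCommGroup K] [InnerProductSpace ℂ K] [CompleteSpace K]
  [NormedAddCommGroup E] [InnerProductSpace ℂ E] [CompleteSpace E]
  {A : VonNeumannAlgebra H} {ξ : H} {N : VonNeumannAlgebra K} {ζ : K}

/-- the size of the matrices -/
def sz (R₁ : AsRep A ξ) (R₂ : AsRep N ζ) (p : R₁.I × R₂.I) : ℝ := (R₁.n p.1 : ℝ) * R₂.n p.2

theorem sz_pos (R₁ : AsRep A ξ) (R₂ : AsRep N ζ) (p : R₁.I × R₂.I) : 0 < sz R₁ R₂ p := by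
  have h1 := R₁.pos p.1
  have h2 := R₂.pos p.2
  unfold sz
  positivity

/-- null families of matrices of the tensor product -/
abbrev NT (R₁ : AsRep A ξ) (R₂ : AsRep N ζ)
    (X : ∀ p : R₁.I × R₂.I,
      Matrix (Fin (R₁.n p.1) × Fin (R₂.n p.2)) (Fin (R₁.n p.1) × Fin (R₂.n p.2)) ℂ) : Prop :=
  Nul (I := R₁.I × R₂.I) (S := fun p => Fin (R₁.n p.1) × Fin (R₂.n p.2)) (R₁.F ×ˢ R₂.F)
    (sz R₁ R₂) X

/-- bounded families of matrices of the tensor product -/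
abbrev BT (R₁ : AsRep A ξ) (R₂ : AsRep N ζ)
    (X : ∀ p : R₁.I × R₂.I,
      Matrix (Fin (R₁.n p.1) × Fin (R₂.n p.2)) (Fin (R₁.n p.1) × Fin (R₂.n p.2)) ℂ) : Prop :=
  BB (I := R₁.I × R₂.I) (S := fun p => Fin (R₁.n p.1) × Fin (R₂.n p.2)) X

theorem n_pos (R : AsRep A ξ) (i : R.I) : (0 : ℝ) < R.n i := by
  exact_mod_cast R.pos i

theorem kron_left (R₁ : AsRep A ξ) (R₂ : AsRep N ζ)
    {X : ∀ i, Matrix (Fin (R₁.n i)) (Fin (R₁.n i)) ℂ} {Y : ∀ i, Matrix (Fin (R₂.n i)) (Fin (R₂.n i)) ℂ}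
    (hX : Nul R₁.F (fun i => (R₁.n i : ℝ)) X) (hY : BB Y) :
    NT R₁ R₂ (fun p => X p.1 ⊗ₖ Y p.2) :=
  Nul.kron (T := fun j => Fin (R₂.n j)) (d := fun j => (R₂.n j : ℝ)) (n_pos R₁) (n_pos R₂) hX hY
    (fun j => hs_one _)

theorem kron_right (R₁ : AsRep A ξ) (R₂ : AsRep N ζ)
    {X : ∀ i, Matrix (Fin (R₁.n i)) (Fin (R₁.n i)) ℂ} {Y : ∀ i, Matrix (Fin (R₂.n i)) (Fin (R₂.n i)) ℂ}
    (hX : BB X) (hY : Nul R₂.F (fun i => (R₂.n i : ℝ)) Y) :
    NT R₁ R₂ (fun p => X p.1 ⊗ₖ Y p.2) :=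
  Nul.kron' (S := fun j => Fin (R₁.n j)) (c := fun j => (R₁.n j : ℝ)) (n_pos R₁) (n_pos R₂) hX hY
    (fun j => hs_one _)

/-- `X ⊗ Y - X' ⊗ Y'` is null if `X - X'` and `Y - Y'` are -/
theorem kron_sub (R₁ : AsRep A ξ) (R₂ : AsRep N ζ)
    {X X' : ∀ i, Matrix (Fin (R₁.n i)) (Fin (R₁.n i)) ℂ}
    {Y Y' : ∀ i, Matrix (Fin (R₂.n i)) (Fin (R₂.n i)) ℂ}
    (hX : Nul R₁.F (fun i => (R₁.n i : ℝ)) (fun i => X i - X' i))
    (hY : Nul R₂.F (fun i => (R₂.n i : ℝ)) (fun i => Y i - Y' i)) (bX : BB X') (bY : BB Y) :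
    NT R₁ R₂ (fun p => X p.1 ⊗ₖ Y p.2 - X' p.1 ⊗ₖ Y' p.2) := by
  have h1 := kron_left R₁ R₂ hX bY
  have h2 := kron_right R₁ R₂ bX hY
  have h3 := h1.add (sz_pos R₁ R₂) h2
  have e : (fun p : R₁.I × R₂.I => X p.1 ⊗ₖ Y p.2 - X' p.1 ⊗ₖ Y' p.2) =
      fun p => (X p.1 - X' p.1) ⊗ₖ Y p.2 + X' p.1 ⊗ₖ (Y p.2 - Y' p.2) := by
    funext p
    ext i j
    simp only [Matrix.sub_apply, Matrix.add_apply, Matrix.kroneckerMap_apply]
    ring
  unfold NT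
  rw [e]
  exact h3

/-- the matrices of a finite sum of elementary tensors, for any finite index type -/
def tg (R₁ : AsRep A ξ) (R₂ : AsRep N ζ) {ι : Type} [Fintype ι] (α : ι → Op H) (β : ι → Op K)
    (p : R₁.I × R₂.I) :
    Matrix (Fin (R₁.n p.1) × Fin (R₂.n p.2)) (Fin (R₁.n p.1) × Fin (R₂.n p.2)) ℂ :=
  ∑ s, R₁.Ψ p.1 (α s) ⊗ₖ R₂.Ψ p.2 (β s)

theorem tg_BT (R₁ : AsRep A ξ) (R₂ : AsRep N ζ) {ι : Type} [Fintype ι] (α : ι → Op H) (β : ι → Op K)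
    (hα : ∀ s, α s ∈ A) (hβ : ∀ s, β s ∈ N) : BT R₁ R₂ (tg R₁ R₂ α β) :=
  BB.sum Finset.univ fun s _ => BB.kron (R₁.bdd _ (hα s)) (R₂.bdd _ (hβ s))

/-- a representation with any finite index type -/
theorem mk_ex (R₁ : AsRep A ξ) (R₂ : AsRep N ζ) {a : Op H → Op E} {b : Op K → Op E} {z : Op E}
    {Z : ∀ p : R₁.I × R₂.I,
      Matrix (Fin (R₁.n p.1) × Fin (R₂.n p.2)) (Fin (R₁.n p.1) × Fin (R₂.n p.2)) ℂ}
    {ι : Type} [Fintype ι] (α : ι → Op H) (β : ι → Op K) (hα : ∀ s, α s ∈ A) (hβ : ∀ s, β s ∈ N)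
    (hz : z = ∑ s, a (α s) * b (β s)) (hZ : NT R₁ R₂ (fun p => Z p - tg R₁ R₂ α β p))
    (hb : BT R₁ R₂ Z) : TRep R₁ R₂ a b z Z := by
  classical
  refine ⟨⟨Fintype.card ι, α ∘ (Fintype.equivFin ι).symm, β ∘ (Fintype.equivFin ι).symm,
    fun s => hα _, fun s => hβ _, ?_, ?_⟩, hb⟩
  · rw [hz]
    exact (Equiv.sum_comp (Fintype.equivFin ι).symm fun s => a (α s) * b (β s)).symm
  · have e : ∀ p, tm R₁ R₂ (α ∘ (Fintype.equivFin ι).symm) (β ∘ (Fintype.equivFin ι).symm) p =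
        tg R₁ R₂ α β p := fun p =>
      Equiv.sum_comp (Fintype.equivFin ι).symm fun s => R₁.Ψ p.1 (α s) ⊗ₖ R₂.Ψ p.2 (β s)
    simp only [e]
    exact hZ

variable {T : VonNeumannAlgebra E} {η : E} {a : Op H → Op E} {b : Op K → Op E}

theorem rep_tm (R₁ : AsRep A ξ) (R₂ : AsRep N ζ) {r : ℕ} (α : Fin r → Op H) (β : Fin r → Op K)
    (hα : ∀ s, α s ∈ A) (hβ : ∀ s, β s ∈ N) :
    TRep R₁ R₂ a b (∑ s, a (α s) * b (β s)) (tm R₁ R₂ α β) := by
  refine mk_ex R₁ R₂ α β hα hβ rfl ?_ (tg_BT R₁ R₂ α β hα hβ)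
  have e : (fun p => tm R₁ R₂ α β p - tg R₁ R₂ α β p) = fun p => 0 := by
    funext p
    exact sub_self _
  rw [e]
  exact Nul.zero

theorem rep_one (R₁ : AsRep A ξ) (R₂ : AsRep N ζ) (hT : IsTensor A ξ N ζ T η a b) :
    TRep R₁ R₂ a b 1 (fun _ => 1) := by
  classical
  refine mk_ex R₁ R₂ (ι := Unit) (fun _ => 1) (fun _ => 1) (fun _ => one_mem A)
    (fun _ => one_mem N) ?_ ?_ BB.one
  · rw [Fintype.sum_unique, hT.homA.one, hT.homN.one, mul_one]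
  · have h1 : Nul R₁.F (fun i => (R₁.n i : ℝ)) (fun i => R₁.Ψ i 1 - 1) := R₁.one
    have h2 : Nul R₂.F (fun i => (R₂.n i : ℝ)) (fun i => R₂.Ψ i 1 - 1) := R₂.one
    have h3 := (kron_sub R₁ R₂ h1 h2 BB.one (R₂.bdd 1 (one_mem N))).neg
    have e : (fun p => (1 : Matrix (Fin (R₁.n p.1) × Fin (R₂.n p.2))
        (Fin (R₁.n p.1) × Fin (R₂.n p.2)) ℂ) - tg R₁ R₂ (ι := Unit) (fun _ => 1) (fun _ => 1) p) =
        fun p => -(R₁.Ψ p.1 1 ⊗ₖ R₂.Ψ p.2 1 - (1 : Matrix (Fin (R₁.n p.1)) (Fin (R₁.n p.1)) ℂ) ⊗ₖ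
          (1 : Matrix (Fin (R₂.n p.2)) (Fin (R₂.n p.2)) ℂ)) := by
      funext p
      rw [neg_sub, Matrix.one_kronecker_one, tg, Fintype.sum_unique]
    unfold NT
    rw [e]
    exact h3

theorem rep_mul (R₁ : AsRep A ξ) (R₂ : AsRep N ζ) (hT : IsTensor A ξ N ζ T η a b) {z w : Op E}
    {Z W : ∀ p : R₁.I × R₂.I,
      Matrix (Fin (R₁.n p.1) × Fin (R₂.n p.2)) (Fin (R₁.n p.1) × Fin (R₂.n p.2)) ℂ}
    (hz : TRep R₁ R₂ a b z Z) (hw : TRep R₁ R₂ a b w W) :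
    TRep R₁ R₂ a b (z * w) (fun p => Z p * W p) := by
  obtain ⟨⟨r, α, β, hα, hβ, ez, nz⟩, bz⟩ := hz
  obtain ⟨⟨r', α', β', hα', hβ', ew, nw⟩, bw⟩ := hw
  have bz' : BT R₁ R₂ Z := bz
  have bw' : BT R₁ R₂ W := bw
  have nz' : NT R₁ R₂ (fun p => Z p - tg R₁ R₂ α β p) := nz
  have nw' : NT R₁ R₂ (fun p => W p - tg R₁ R₂ α' β' p) := nw
  refine mk_ex R₁ R₂ (ι := Fin r × Fin r') (fun s => α s.1 * α' s.2) (fun s => β s.1 * β' s.2)
    (fun s => mul_mem (S := VonNeumannAlgebra H) (s := A) (hα _) (hα' _))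
    (fun s => mul_mem (S := VonNeumannAlgebra K) (s := N) (hβ _) (hβ' _)) ?_ ?_ (bz'.mul bw')
  · rw [ez, ew, Finset.sum_mul_sum, Fintype.sum_prod_type]
    refine Finset.sum_congr rfl fun s _ => Finset.sum_congr rfl fun t _ => ?_
    rw [hT.homA.mul _ (hα s) _ (hα' t), hT.homN.mul _ (hβ s) _ (hβ' t)]
    have := hT.comm _ (hα' t) _ (hβ s)
    calc a (α s) * b (β s) * (a (α' t) * b (β' t)) = a (α s) * (b (β s) * a (α' t)) * b (β' t) := by
          noncomm_ring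
      _ = a (α s) * (a (α' t) * b (β s)) * b (β' t) := by rw [this]
      _ = a (α s) * a (α' t) * (b (β s) * b (β' t)) := by noncomm_ring
  · have h1 : NT R₁ R₂ (fun p => (Z p - tg R₁ R₂ α β p) * W p) := nz'.mul_right (sz_pos R₁ R₂) bw'
    have h2 : NT R₁ R₂ (fun p => tg R₁ R₂ α β p * (W p - tg R₁ R₂ α' β' p)) :=
      nw'.mul_left (sz_pos R₁ R₂) (tg_BT R₁ R₂ α β hα hβ)
    have h3 : NT R₁ R₂ (fun p => ∑ s : Fin r × Fin r',
        ((R₁.Ψ p.1 (α s.1) * R₁.Ψ p.1 (α' s.2)) ⊗ₖ (R₂.Ψ p.2 (β s.1) * R₂.Ψ p.2 (β' s.2)) -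
          R₁.Ψ p.1 (α s.1 * α' s.2) ⊗ₖ R₂.Ψ p.2 (β s.1 * β' s.2))) := by
      refine Nul.sum Finset.univ (sz_pos R₁ R₂) fun s _ => ?_
      refine kron_sub R₁ R₂ (X := fun i => R₁.Ψ i (α s.1) * R₁.Ψ i (α' s.2))
        (X' := fun i => R₁.Ψ i (α s.1 * α' s.2))
        (Y := fun i => R₂.Ψ i (β s.1) * R₂.Ψ i (β' s.2))
        (Y' := fun i => R₂.Ψ i (β s.1 * β' s.2)) ?_ ?_ ?_ ?_
      · have := Nul.neg (F := R₁.F) (c := fun i => (R₁.n i : ℝ))
          (X := fun i => R₁.Ψ i (α s.1 * α' s.2) - R₁.Ψ i (α s.1) * R₁.Ψ i (α' s.2))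
          (R₁.mul _ (hα _) _ (hα' _))
        simpa only [neg_sub] using this
      · have := Nul.neg (F := R₂.F) (c := fun i => (R₂.n i : ℝ))
          (X := fun i => R₂.Ψ i (β s.1 * β' s.2) - R₂.Ψ i (β s.1) * R₂.Ψ i (β' s.2))
          (R₂.mul _ (hβ _) _ (hβ' _))
        simpa only [neg_sub] using this
      · exact R₁.bdd _ (mul_mem (S := VonNeumannAlgebra H) (s := A) (hα _) (hα' _))
      · exact BB.mul (R₂.bdd _ (hβ _)) (R₂.bdd _ (hβ' _))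
    have h4 := (h1.add (sz_pos R₁ R₂) h2).add (sz_pos R₁ R₂) h3
    have e : (fun p => Z p * W p - tg R₁ R₂ (ι := Fin r × Fin r') (fun s => α s.1 * α' s.2)
        (fun s => β s.1 * β' s.2) p) = fun p => (Z p - tg R₁ R₂ α β p) * W p +
          tg R₁ R₂ α β p * (W p - tg R₁ R₂ α' β' p) + ∑ s : Fin r × Fin r',
        ((R₁.Ψ p.1 (α s.1) * R₁.Ψ p.1 (α' s.2)) ⊗ₖ (R₂.Ψ p.2 (β s.1) * R₂.Ψ p.2 (β' s.2)) -
          R₁.Ψ p.1 (α s.1 * α' s.2) ⊗ₖ R₂.Ψ p.2 (β s.1 * β' s.2)) := by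
      funext p
      have e1 : tg R₁ R₂ α β p * tg R₁ R₂ α' β' p = ∑ s : Fin r × Fin r',
          (R₁.Ψ p.1 (α s.1) * R₁.Ψ p.1 (α' s.2)) ⊗ₖ (R₂.Ψ p.2 (β s.1) * R₂.Ψ p.2 (β' s.2)) := by
        unfold tg
        rw [Finset.sum_mul_sum, Fintype.sum_prod_type]
        refine Finset.sum_congr rfl fun s _ => Finset.sum_congr rfl fun t _ => ?_
        rw [Matrix.mul_kronecker_mul]
      rw [Finset.sum_sub_distrib, ← e1, Matrix.sub_mul, Matrix.mul_sub]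
      unfold tg
      abel
    unfold NT
    rw [e]
    exact h4

theorem rep_add (R₁ : AsRep A ξ) (R₂ : AsRep N ζ) {z w : Op E}
    {Z W : ∀ p : R₁.I × R₂.I,
      Matrix (Fin (R₁.n p.1) × Fin (R₂.n p.2)) (Fin (R₁.n p.1) × Fin (R₂.n p.2)) ℂ}
    (hz : TRep R₁ R₂ a b z Z) (hw : TRep R₁ R₂ a b w W) :
    TRep R₁ R₂ a b (z + w) (fun p => Z p + W p) := by
  obtain ⟨⟨r, α, β, hα, hβ, ez, nz⟩, bz⟩ := hz
  obtain ⟨⟨r', α', β', hα', hβ', ew, nw⟩, bw⟩ := hw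
  have bz' : BT R₁ R₂ Z := bz
  have bw' : BT R₁ R₂ W := bw
  have nz' : NT R₁ R₂ (fun p => Z p - tg R₁ R₂ α β p) := nz
  have nw' : NT R₁ R₂ (fun p => W p - tg R₁ R₂ α' β' p) := nw
  refine mk_ex R₁ R₂ (ι := Fin r ⊕ Fin r') (Sum.elim α α') (Sum.elim β β')
    (by rintro (s | s) <;> simp [hα, hα']) (by rintro (s | s) <;> simp [hβ, hβ']) ?_ ?_ (bz'.add bw')
  · rw [ez, ew, Fintype.sum_sum_type]
    rfl
  · have h4 := nz'.add (sz_pos R₁ R₂) nw'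
    have e : (fun p => Z p + W p - tg R₁ R₂ (ι := Fin r ⊕ Fin r') (Sum.elim α α')
        (Sum.elim β β') p) = fun p => (Z p - tg R₁ R₂ α β p) + (W p - tg R₁ R₂ α' β' p) := by
      funext p
      unfold tg
      rw [Fintype.sum_sum_type]
      simp only [Sum.elim_inl, Sum.elim_inr]
      abel
    unfold NT
    rw [e]
    exact h4

theorem rep_smul (R₁ : AsRep A ξ) (R₂ : AsRep N ζ) (hT : IsTensor A ξ N ζ T η a b) (c : ℂ)
    {z : Op E} {Z : ∀ p : R₁.I × R₂.I,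
      Matrix (Fin (R₁.n p.1) × Fin (R₂.n p.2)) (Fin (R₁.n p.1) × Fin (R₂.n p.2)) ℂ}
    (hz : TRep R₁ R₂ a b z Z) : TRep R₁ R₂ a b (c • z) (fun p => c • Z p) := by
  obtain ⟨⟨r, α, β, hα, hβ, ez, nz⟩, bz⟩ := hz
  have bz' : BT R₁ R₂ Z := bz
  have nz' : NT R₁ R₂ (fun p => Z p - tg R₁ R₂ α β p) := nz
  refine mk_ex R₁ R₂ (fun s => c • α s) β
    (fun s => SMulMemClass.smul_mem (S := StarSubalgebra ℂ (Op H)) (s := A.toStarSubalgebra) c (hα s))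
    hβ ?_ ?_ (bz'.smul c)
  · rw [ez, Finset.smul_sum]
    refine Finset.sum_congr rfl fun s _ => ?_
    rw [hT.homA.smul c _ (hα s), smul_mul_assoc]
  · have h1 : NT R₁ R₂ (fun p => c • (Z p - tg R₁ R₂ α β p)) := nz'.smul c (sz_pos R₁ R₂)
    have h3 : NT R₁ R₂ (fun p => ∑ s : Fin r,
        ((c • R₁.Ψ p.1 (α s)) ⊗ₖ R₂.Ψ p.2 (β s) - R₁.Ψ p.1 (c • α s) ⊗ₖ R₂.Ψ p.2 (β s))) := by
      refine Nul.sum Finset.univ (sz_pos R₁ R₂) fun s _ => ?_
      refine kron_sub R₁ R₂ (X := fun i => c • R₁.Ψ i (α s))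
        (X' := fun i => R₁.Ψ i (c • α s)) (Y := fun i => R₂.Ψ i (β s))
        (Y' := fun i => R₂.Ψ i (β s)) ?_ ?_ ?_ ?_
      · have := Nul.neg (F := R₁.F) (c := fun i => (R₁.n i : ℝ))
          (X := fun i => R₁.Ψ i (c • α s) - c • R₁.Ψ i (α s)) (R₁.smul c _ (hα s))
        simpa only [neg_sub] using this
      · simp only [sub_self]
        exact Nul.zero
      · exact R₁.bdd _ (SMulMemClass.smul_mem (S := StarSubalgebra ℂ (Op H))
          (s := A.toStarSubalgebra) c (hα s))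
      · exact R₂.bdd _ (hβ _)
    have h4 := h1.add (sz_pos R₁ R₂) h3
    have e : (fun p => c • Z p - tg R₁ R₂ (fun s => c • α s) β p) = fun p =>
        c • (Z p - tg R₁ R₂ α β p) + ∑ s : Fin r,
        ((c • R₁.Ψ p.1 (α s)) ⊗ₖ R₂.Ψ p.2 (β s) - R₁.Ψ p.1 (c • α s) ⊗ₖ R₂.Ψ p.2 (β s)) := by
      funext p
      rw [Finset.sum_sub_distrib, smul_sub]
      unfold tg
      rw [Finset.smul_sum]
      simp only [Matrix.smul_kronecker]
      abel
    unfold NT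
    rw [e]
    exact h4

theorem rep_star (R₁ : AsRep A ξ) (R₂ : AsRep N ζ) (hT : IsTensor A ξ N ζ T η a b)
    {z : Op E} {Z : ∀ p : R₁.I × R₂.I,
      Matrix (Fin (R₁.n p.1) × Fin (R₂.n p.2)) (Fin (R₁.n p.1) × Fin (R₂.n p.2)) ℂ}
    (hz : TRep R₁ R₂ a b z Z) : TRep R₁ R₂ a b (star z) (fun p => (Z p)ᴴ) := by
  obtain ⟨⟨r, α, β, hα, hβ, ez, nz⟩, bz⟩ := hz
  have bz' : BT R₁ R₂ Z := bz
  have nz' : NT R₁ R₂ (fun p => Z p - tg R₁ R₂ α β p) := nz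
  refine mk_ex R₁ R₂ (fun s => star (α s)) (fun s => star (β s))
    (fun s => star_mem (S := VonNeumannAlgebra H) (s := A) (hα s))
    (fun s => star_mem (S := VonNeumannAlgebra K) (s := N) (hβ s)) ?_ ?_ bz'.conj
  · rw [ez, star_sum]
    refine Finset.sum_congr rfl fun s _ => ?_
    rw [star_mul, hT.homA.star _ (hα s), hT.homN.star _ (hβ s), ← hT.homA.star _ (hα s),
      ← hT.homN.star _ (hβ s)]
    exact (hT.comm _ (star_mem (S := VonNeumannAlgebra H) (s := A) (hα s)) _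
      (star_mem (S := VonNeumannAlgebra K) (s := N) (hβ s))).symm
  · have h1 : NT R₁ R₂ (fun p => (Z p - tg R₁ R₂ α β p)ᴴ) := nz'.conj
    have h3 : NT R₁ R₂ (fun p => ∑ s : Fin r,
        ((R₁.Ψ p.1 (α s))ᴴ ⊗ₖ (R₂.Ψ p.2 (β s))ᴴ -
          R₁.Ψ p.1 (star (α s)) ⊗ₖ R₂.Ψ p.2 (star (β s)))) := by
      refine Nul.sum Finset.univ (sz_pos R₁ R₂) fun s _ => ?_
      refine kron_sub R₁ R₂ (X := fun i => (R₁.Ψ i (α s))ᴴ)
        (X' := fun i => R₁.Ψ i (star (α s))) (Y := fun i => (R₂.Ψ i (β s))ᴴ)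
        (Y' := fun i => R₂.Ψ i (star (β s))) ?_ ?_ ?_ ?_
      · have := Nul.neg (F := R₁.F) (c := fun i => (R₁.n i : ℝ))
          (X := fun i => R₁.Ψ i (star (α s)) - (R₁.Ψ i (α s))ᴴ) (R₁.star _ (hα s))
        simpa only [neg_sub] using this
      · have := Nul.neg (F := R₂.F) (c := fun i => (R₂.n i : ℝ))
          (X := fun i => R₂.Ψ i (star (β s)) - (R₂.Ψ i (β s))ᴴ) (R₂.star _ (hβ s))
        simpa only [neg_sub] using this
      · exact R₁.bdd _ (star_mem (S := VonNeumannAlgebra H) (s := A) (hα s))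
      · exact BB.conj (R₂.bdd _ (hβ _))
    have h4 := h1.add (sz_pos R₁ R₂) h3
    have e : (fun p => (Z p)ᴴ - tg R₁ R₂ (fun s => star (α s)) (fun s => star (β s)) p) = fun p =>
        (Z p - tg R₁ R₂ α β p)ᴴ + ∑ s : Fin r,
        ((R₁.Ψ p.1 (α s))ᴴ ⊗ₖ (R₂.Ψ p.2 (β s))ᴴ -
          R₁.Ψ p.1 (star (α s)) ⊗ₖ R₂.Ψ p.2 (star (β s))) := by
      funext p
      rw [Finset.sum_sub_distrib, Matrix.conjTranspose_sub]
      unfold tg
      rw [Matrix.conjTranspose_sum]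
      simp only [Matrix.conjTranspose_kronecker]
      abel
    unfold NT
    rw [e]
    exact h4

theorem rep_trace (R₁ : AsRep A ξ) (R₂ : AsRep N ζ) (hT : IsTensor A ξ N ζ T η a b)
    {z : Op E} {Z : ∀ p : R₁.I × R₂.I,
      Matrix (Fin (R₁.n p.1) × Fin (R₂.n p.2)) (Fin (R₁.n p.1) × Fin (R₂.n p.2)) ℂ}
    (hz : TRep R₁ R₂ a b z Z) :
    Tendsto (fun p => Matrix.trace (Z p) / ((R₁.n p.1 : ℂ) * R₂.n p.2)) (R₁.F ×ˢ R₂.F)
      (𝓝 (tr η z)) := by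
  obtain ⟨⟨r, α, β, hα, hβ, ez, nz⟩, bz⟩ := hz
  have h1 : Tendsto (fun p : R₁.I × R₂.I => ∑ s, (Matrix.trace (R₁.Ψ p.1 (α s)) / (R₁.n p.1 : ℂ)) *
      (Matrix.trace (R₂.Ψ p.2 (β s)) / (R₂.n p.2 : ℂ))) (R₁.F ×ˢ R₂.F)
      (𝓝 (∑ s, tr ξ (α s) * tr ζ (β s))) := by
    refine tendsto_finsetSum _ fun s _ => ?_
    exact ((R₁.trace _ (hα s)).comp tendsto_fst).mul ((R₂.trace _ (hβ s)).comp tendsto_snd)
  have h2 : tr η z = ∑ s, tr ξ (α s) * tr ζ (β s) := by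
    rw [ez]
    have : ∀ x : Fin r → Op E, tr η (∑ s, x s) = ∑ s, tr η (x s) := by
      intro x
      unfold tr
      rw [ContinuousLinearMap.sum_apply, inner_sum]
    rw [this]
    exact Finset.sum_congr rfl fun s _ => hT.trace _ (hα s) _ (hβ s)
  rw [h2]
  have h3 : Tendsto (fun p : R₁.I × R₂.I => (Matrix.trace (Z p) -
      Matrix.trace (tm R₁ R₂ α β p)) / ((R₁.n p.1 : ℂ) * R₂.n p.2)) (R₁.F ×ˢ R₂.F) (𝓝 0) := by
    rw [tendsto_zero_iff_norm_tendsto_zero]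
    have h4 : Tendsto (fun p => √(hs (Z p - tm R₁ R₂ α β p) / ((R₁.n p.1 : ℝ) * R₂.n p.2)))
        (R₁.F ×ˢ R₂.F) (𝓝 0) := by
      have := (Real.continuous_sqrt.tendsto 0).comp nz
      rw [Real.sqrt_zero] at this
      exact this
    refine squeeze_zero (fun p => norm_nonneg _) (fun p => ?_) h4
    have hp := sz_pos R₁ R₂ p
    rw [← Matrix.trace_sub, norm_div, norm_mul, Complex.norm_natCast, Complex.norm_natCast]
    have h5 := norm_trace_le (1 : Matrix (Fin (R₁.n p.1) × Fin (R₂.n p.2))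
      (Fin (R₁.n p.1) × Fin (R₂.n p.2)) ℂ) (Z p - tm R₁ R₂ α β p)
    rw [Matrix.conjTranspose_one, Matrix.one_mul] at h5
    have h6 : hs (1 : Matrix (Fin (R₁.n p.1) × Fin (R₂.n p.2))
      (Fin (R₁.n p.1) × Fin (R₂.n p.2)) ℂ) = sz R₁ R₂ p := by
      rw [← Matrix.one_kronecker_one, hs_kron, hs_one, hs_one]
      rfl
    rw [h6] at h5
    show _ / sz R₁ R₂ p ≤ √(_ / sz R₁ R₂ p)
    rw [Real.sqrt_div (hs_nonneg _), div_le_div_iff₀ hp (Real.sqrt_pos.2 hp)]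
    calc _ ≤ (√(sz R₁ R₂ p) * √(hs (Z p - tm R₁ R₂ α β p))) * √(sz R₁ R₂ p) :=
          mul_le_mul_of_nonneg_right h5 (Real.sqrt_nonneg _)
      _ = √(hs (Z p - tm R₁ R₂ α β p)) * (√(sz R₁ R₂ p) * √(sz R₁ R₂ p)) := by ring
      _ = _ := by rw [Real.mul_self_sqrt hp.le]
  have h7 := h3.add h1
  rw [zero_add] at h7
  refine h7.congr fun p => ?_
  have h8 : Matrix.trace (tm R₁ R₂ α β p) = ∑ s, Matrix.trace (R₁.Ψ p.1 (α s)) *
      Matrix.trace (R₂.Ψ p.2 (β s)) := by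
    unfold tm
    rw [Matrix.trace_sum]
    exact Finset.sum_congr rfl fun s _ => Matrix.trace_kronecker _ _
  rw [sub_div, h8, Finset.sum_div]
  have h9 : ∀ s, Matrix.trace (R₁.Ψ p.1 (α s)) * Matrix.trace (R₂.Ψ p.2 (β s)) /
      ((R₁.n p.1 : ℂ) * R₂.n p.2) = (Matrix.trace (R₁.Ψ p.1 (α s)) / (R₁.n p.1 : ℂ)) *
      (Matrix.trace (R₂.Ψ p.2 (β s)) / (R₂.n p.2 : ℂ)) := fun s => by
    rw [div_mul_div_comm]
  simp only [h9]
  ring

theorem rep_hs (R₁ : AsRep A ξ) (R₂ : AsRep N ζ) (hT : IsTensor A ξ N ζ T η a b)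
    {z : Op E} {Z : ∀ p : R₁.I × R₂.I,
      Matrix (Fin (R₁.n p.1) × Fin (R₂.n p.2)) (Fin (R₁.n p.1) × Fin (R₂.n p.2)) ℂ}
    (hz : TRep R₁ R₂ a b z Z) :
    Tendsto (fun p => hs (Z p) / ((R₁.n p.1 : ℝ) * R₂.n p.2)) (R₁.F ×ˢ R₂.F)
      (𝓝 (‖z η‖ ^ 2)) := by
  have h1 := rep_trace R₁ R₂ hT (rep_mul R₁ R₂ hT (rep_star R₁ R₂ hT hz) hz)
  have h2 := (Complex.continuous_re.tendsto _).comp h1
  have h3 : (tr η (star z * z)).re = ‖z η‖ ^ 2 := by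
    unfold tr
    rw [ContinuousLinearMap.mul_apply, ContinuousLinearMap.star_eq_adjoint,
      ContinuousLinearMap.adjoint_inner_right, inner_self_eq_norm_sq_to_K]
    norm_cast
  rw [h3] at h2
  refine h2.congr fun p => ?_
  rw [Function.comp_apply, hs_eq]
  have : ((R₁.n p.1 : ℂ) * R₂.n p.2) = (((R₁.n p.1 : ℝ) * R₂.n p.2 : ℝ) : ℂ) := by push_cast; rfl
  rw [this, Complex.div_ofReal_re]

end ten

theorem t_TEN : S_TEN := by
  intro H K E _ _ _ _ _ _ _ _ _ A ξ N ζ T η a b hA hN hT R₁ R₂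
  refine ⟨fun r α β hα hβ => rep_tm R₁ R₂ α β hα hβ, rep_one R₁ R₂ hT, ?_, ?_⟩
  · intro z Z w W hz hw
    refine ⟨rep_mul R₁ R₂ hT hz hw, rep_add R₁ R₂ hz hw, ?_⟩
    have := rep_add R₁ R₂ hz (rep_smul R₁ R₂ hT (-1) hw)
    simpa only [neg_smul, one_smul, ← sub_eq_add_neg] using this
  · intro z Z hz
    exact ⟨rep_star R₁ R₂ hT hz, rep_trace R₁ R₂ hT hz, rep_hs R₁ R₂ hT hz⟩

end

end Pool.Agent.P8H66.RE
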